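import Pool.Agent.H8NB.Data

set_option autoImplicit false

namespace Pool.Agent.Results.MP_790f3b_al.NotMultiplicativeGroup

open Pool.Agent.H8NB
open scoped commutatorElement

universe u

/-- There is a nilpotent group of class two that is not isomorphic to the multiplicative group
of any left brace. -/
theorem result : ∃ (G : Type) (_ : Group G),
    (∃ a b : G, a * b ≠ b * a) ∧ commutator G ≤ Subgroup.center G ∧
    ∀ (B : Type u) [AddCommGroup B] [Group B],
      (∀ a b c : B, a * (b + c) = a * b - a + a * c) → ¬ Nonempty (G ≃* B) := by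
  refine ⟨GG, inferInstance, ?_, ?_, ?_⟩
  · refine ⟨⟨e0, 0, e0A.1, e0A.2, ?_⟩, ⟨e1, 0, e1A.1, e1A.2, ?_⟩, ?_⟩
    · rw [γ_zero, α2_e0]; simp
    · rw [γ_zero, α1_e1]; simp
    · intro h
      have h1 := commute_cr h
      have h2 := congrArg (fun t : V => t.2.2) h1
      simp [cr, e0, e1] at h2
  · rw [commutator_def, Subgroup.commutator_le]
    intro g _ h _
    rw [Subgroup.mem_center_iff]
    intro k
    have h1 := theRD.comm g h
    set z := theRD.ι (theRD.ω (theRD.q g) (theRD.q h)) with hz
    have hzc : ∀ x, Commute z x := theRD.ι_central _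
    have h2 : ⁅g, h⁆ = z := by
      rw [commutatorElement_def, h1, mul_assoc (h * g) z, (hzc g⁻¹).eq, ← mul_assoc,
        mul_assoc (h * g * g⁻¹) z, (hzc h⁻¹).eq]
      group
    rw [h2]
    exact (hzc k).eq.symm
  · intro B _ _ hbr
    rw [not_nonempty_iff]
    exact no_brace theRD B hbr

end Pool.Agent.Results.MP_790f3b_al.NotMultiplicativeGroup
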